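import Mathlib

/-!
# Discrete valuation rings of finite extensions

(helper44, project DG.)
-/

set_option autoImplicit false
set_option linter.all false

namespace Pool.Agent.J4H44.DG

open Polynomial IsDedekindDomain WithZero

/-- the local ring of a maximal ideal of a Dedekind domain -/
theorem loc_ring {C L : Type} [CommRing C] [IsDedekindDomain C] [Field L] [Algebra C L]
    [IsFractionRing C L] (P : Ideal C) [hPm : P.IsMaximal] (hP0 : P ≠ ⊥) [Finite (C ⧸ P)] :
    ∃ (B : Type) (_ : CommRing B) (_ : IsDomain B) (_ : IsDiscreteValuationRing B)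
      (_ : Algebra C B) (_ : Algebra B L), Finite (IsLocalRing.ResidueField B) ∧
      IsFractionRing B L ∧ (algebraMap B L).comp (algebraMap C B) = algebraMap C L ∧
      Nat.card (IsLocalRing.ResidueField B) = Nat.card (C ⧸ P) ∧
      (∀ c ∈ P, algebraMap C B c ∈ IsLocalRing.maximalIdeal B) ∧
      ∀ (b : C) (n : ℕ), b ∈ P ^ n → b ∉ P ^ (n + 1) →
        ∃ ϖ t : B, Irreducible ϖ ∧ IsUnit t ∧ algebraMap C B b = t * ϖ ^ n := by
  classical
  have hvp : P.IsPrime := hPm.isPrime
  have hle : P.primeCompl ≤ nonZeroDivisors C := P.primeCompl_le_nonZeroDivisors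
  let B := Localization.subalgebra.ofField L P.primeCompl hle
  have hloc : IsLocalization.AtPrime B P :=
    Localization.subalgebra.isLocalization_ofField L P.primeCompl hle
  have hdvr : IsDiscreteValuationRing B :=
    IsLocalization.AtPrime.isDiscreteValuationRing_of_dedekind_domain C hP0 B
  have hfr : IsFractionRing B L := inferInstance
  let e : (C ⧸ P) ≃+* IsLocalRing.ResidueField B :=
    IsLocalization.AtPrime.equivQuotMaximalIdeal P B
  have hcompK : (algebraMap B L).comp (algebraMap C B) = algebraMap C L := by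
    ext c
    rfl
  have hfin : Finite (IsLocalRing.ResidueField B) := Finite.of_equiv _ e.toEquiv
  have hpow : ∀ (b : C) (m : ℕ), b ∈ P ^ m ↔ algebraMap C B b ∈
      IsLocalRing.maximalIdeal B ^ m := by
    intro b m
    rw [← IsLocalization.AtPrime.under_maximalIdeal_pow P B]
    rfl
  refine ⟨B, inferInstance, inferInstance, hdvr, inferInstance, inferInstance, hfin, hfr, hcompK,
    (Nat.card_congr e.toEquiv).symm, ?_, ?_⟩
  · intro c hc
    have h1 := (hpow c 1).1 (by rwa [pow_one])
    rwa [pow_one] at h1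
  intro b n hb hb'
  obtain ⟨ϖ, hϖ⟩ := IsDiscreteValuationRing.exists_irreducible B
  have hb0 : algebraMap C B b ≠ 0 := by
    intro h
    apply hb'
    rw [hpow, h]
    exact zero_mem _
  obtain ⟨j, u, hj⟩ := IsDiscreteValuationRing.eq_unit_mul_pow_irreducible hb0 hϖ
  have hdvd : ∀ m : ℕ, b ∈ P ^ m ↔ m ≤ j := by
    intro m
    rw [hpow, hϖ.maximalIdeal_eq, Ideal.span_singleton_pow, Ideal.mem_span_singleton, hj,
      (Units.isUnit u).dvd_mul_left, pow_dvd_pow_iff hϖ.ne_zero hϖ.not_isUnit]
  have hjn : j = n := by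
    rw [hdvd] at hb hb'
    omega
  exact ⟨ϖ, u, hϖ, u.isUnit, by rw [hj, hjn]⟩

set_option linter.deprecated false in
/-- for `[L : k] ∉ S` there is a discrete valuation ring `B` of `L` over `A` with `e f ∉ S` -/
theorem exists_B (A k L : Type) [CommRing A] [IsDomain A] [IsDiscreteValuationRing A]
    [Finite (IsLocalRing.ResidueField A)] [Field k] [CharZero k] [Algebra A k]
    [IsFractionRing A k] [Field L] [Algebra k L] [Module.Finite k L] (S : AddSubmonoid ℕ)
    (hS : Module.finrank k L ∉ S) :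
    ∃ (B : Type) (_ : CommRing B) (_ : IsDomain B) (_ : IsDiscreteValuationRing B)
      (_ : Algebra B L) (ρ : A →+* B) (e f : ℕ), Finite (IsLocalRing.ResidueField B) ∧
      IsFractionRing B L ∧
      (∀ c, algebraMap B L (ρ c) = algebraMap k L (algebraMap A k c)) ∧ e * f ∉ S ∧
      Nat.card (IsLocalRing.ResidueField B) = Nat.card (IsLocalRing.ResidueField A) ^ f ∧
      (∀ c ∈ IsLocalRing.maximalIdeal A, ρ c ∈ IsLocalRing.maximalIdeal B) ∧
      ∀ ϖ : A, Irreducible ϖ → ∃ ϖ' t : B, Irreducible ϖ' ∧ IsUnit t ∧ ρ ϖ = t * ϖ' ^ e := by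
  classical
  letI : Algebra A L := ((algebraMap k L).comp (algebraMap A k)).toAlgebra
  haveI : IsScalarTower A k L := IsScalarTower.of_algebraMap_eq fun _ => rfl
  have hAk : Function.Injective (algebraMap A k) := IsFractionRing.injective A k
  have hAL : Function.Injective (algebraMap A L) := (algebraMap k L).injective.comp hAk
  haveI : FaithfulSMul A L := (faithfulSMul_iff_algebraMap_injective A L).2 hAL
  haveI : Module.IsTorsionFree A L := inferInstance
  let C := integralClosure A L
  haveI : IsDedekindDomain C := IsIntegralClosure.isDedekindDomain A k L C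
  haveI : IsFractionRing C L := IsIntegralClosure.isFractionRing_of_finite_extension A k L C
  haveI : Module.Finite A C := IsIntegralClosure.finite A k L C
  haveI : Module.IsTorsionFree A C := IsIntegralClosure.isTorsionFree A L
  set 𝔪 : Ideal A := IsLocalRing.maximalIdeal A with h𝔪
  have hm0 : 𝔪 ≠ ⊥ := IsDiscreteValuationRing.not_a_field A
  have h1 := Ideal.sum_ramification_inertia C k L (p := 𝔪) hm0
  have h2 : ∃ P ∈ IsDedekindDomain.primesOverFinset 𝔪 C,
      𝔪.ramificationIdx' P * 𝔪.inertiaDeg' P ∉ S := by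
    by_contra hcon
    push Not at hcon
    apply hS
    rw [← h1]
    exact S.sum_mem hcon
  obtain ⟨P, hP, hPS⟩ := h2
  obtain ⟨hPp, hPv⟩ := (IsDedekindDomain.mem_primesOverFinset_iff hm0 C).1 hP
  have hPb : P ≠ ⊥ := Ideal.ne_bot_of_liesOver_of_ne_bot hm0 P
  have hPm : P.IsMaximal := hPp.isMaximal hPb
  let v : HeightOneSpectrum A := ⟨𝔪, inferInstance, hm0⟩
  let w : HeightOneSpectrum C := ⟨P, hPp, hPb⟩
  haveI : w.asIdeal.LiesOver v.asIdeal := hPv
  have hcard : Nat.card (C ⧸ P) = Nat.card (A ⧸ 𝔪) ^ 𝔪.inertiaDeg' P := by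
    rw [Ideal.inertiaDeg'_eq_inertiaDeg 𝔪 P]
    have h3 := Ideal.cardQuot_pow_inertiaDeg 𝔪 P
    rw [Submodule.cardQuot_apply, Submodule.cardQuot_apply] at h3
    exact h3.symm
  have hcardA : Nat.card (A ⧸ 𝔪) = Nat.card (IsLocalRing.ResidueField A) := rfl
  have hApos : 0 < Nat.card (A ⧸ 𝔪) := by
    rw [hcardA]
    exact Nat.card_pos
  haveI : Finite (C ⧸ P) := by
    apply Nat.finite_of_card_ne_zero
    rw [hcard]
    exact (pow_pos hApos _).ne'
  obtain ⟨B, _, _, _, _, _, hfin, hfr, hcomp, hcardB, hmax, hval⟩ := loc_ring (L := L) P hPb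
  refine ⟨B, inferInstance, inferInstance, inferInstance, inferInstance,
    (algebraMap C B).comp (algebraMap A C), 𝔪.ramificationIdx' P, 𝔪.inertiaDeg' P, hfin, hfr, ?_,
    hPS, ?_, ?_, ?_⟩
  · intro c
    have h3 := congrArg (fun q => q (algebraMap A C c)) hcomp
    simp only [RingHom.comp_apply] at h3 ⊢
    rw [h3]
    rfl
  · rw [hcardB, hcard, hcardA]
  · intro c hc
    apply hmax
    have h3 : 𝔪 = P.comap (algebraMap A C) := Ideal.over_def P 𝔪
    rw [h3] at hc
    exact hc
  · intro ϖ hϖ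
    have ha : ϖ ∈ v.asIdeal := by
      show ϖ ∈ 𝔪
      rw [h𝔪, hϖ.maximalIdeal_eq]
      exact Ideal.mem_span_singleton_self ϖ
    have ha' : ϖ ∉ v.asIdeal ^ 2 := by
      show ϖ ∉ 𝔪 ^ 2
      rw [h𝔪, hϖ.maximalIdeal_eq, Ideal.span_singleton_pow, Ideal.mem_span_singleton]
      intro h
      have h3 := (pow_dvd_pow_iff (n := 2) (m := 1) hϖ.ne_zero hϖ.not_isUnit).1 (by rwa [pow_one])
      omega
    have ha0 : ϖ ≠ 0 := hϖ.ne_zero
    have h3 : v.intValuation ϖ = exp (-(1 : ℤ)) := by
      have h4 : v.intValuation ϖ ≤ exp (-((1 : ℕ) : ℤ)) := by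
        rw [HeightOneSpectrum.intValuation_le_pow_iff_mem, pow_one]
        exact ha
      have h5 : ¬ v.intValuation ϖ ≤ exp (-((2 : ℕ) : ℤ)) := by
        rw [HeightOneSpectrum.intValuation_le_pow_iff_mem]
        exact ha'
      rw [v.intValuation_eq_exp_neg_multiplicity ha0, exp_le_exp] at h4 h5
      rw [v.intValuation_eq_exp_neg_multiplicity ha0]
      congr 1
      push_cast at h4 h5 ⊢
      omega
    have h4 := HeightOneSpectrum.intValuation_liesOver v w ϖ
    rw [h3] at h4
    have h5 : w.intValuation (algebraMap A C ϖ) =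
        exp (-((v.asIdeal.ramificationIdx' P : ℕ) : ℤ)) := by
      rw [← h4, ← exp_nsmul]
      congr 1
      simp
      rfl
    refine hval (algebraMap A C ϖ) (𝔪.ramificationIdx' P) ?_ ?_
    · have h6 : algebraMap A C ϖ ∈ w.asIdeal ^ (𝔪.ramificationIdx' P) := by
        rw [← HeightOneSpectrum.intValuation_le_pow_iff_mem, h5]
      exact h6
    · have h6 : algebraMap A C ϖ ∉ w.asIdeal ^ (𝔪.ramificationIdx' P + 1) := by
        rw [← HeightOneSpectrum.intValuation_le_pow_iff_mem, h5, exp_le_exp]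
        push_cast
        have : v.asIdeal.ramificationIdx' P = 𝔪.ramificationIdx' P := rfl
        omega
      exact h6

end Pool.Agent.J4H44.DG
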