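import Mathlib

/-!
# Polynomials with irreducible reductions of given degrees

(helper44, project DG.)
-/

set_option autoImplicit false
set_option linter.all false

open Polynomial

namespace Pool.Agent.J4H44.DG

/-- irreducible polynomials of all degrees over finite fields -/
theorem exists_irr (κ : Type) [Field κ] [Finite κ] (g : ℕ) (hg : 0 < g) :
    ∃ P : κ[X], P.Monic ∧ P.natDegree = g ∧ Irreducible P := by
  obtain ⟨p, hp⟩ := CharP.exists κ
  haveI : Fact p.Prime := ⟨CharP.char_is_prime κ p⟩
  haveI : NeZero g := ⟨hg.ne'⟩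
  obtain ⟨α, hα⟩ := Field.exists_primitive_element_of_finite_top κ (FiniteField.Extension κ p g)
  have hint : IsIntegral κ α := IsIntegral.of_finite κ α
  refine ⟨minpoly κ α, minpoly.monic hint, ?_, minpoly.irreducible hint⟩
  rw [(Field.primitive_element_iff_minpoly_natDegree_eq κ α).1 hα,
    FiniteField.finrank_extension κ p g]

/-- a product of irreducible polynomials of different degrees is separable -/
theorem sep_prod {κ : Type} [Field κ] [PerfectField κ] (G : Finset ℕ) (P : ℕ → κ[X])
    (hd : ∀ g ∈ G, (P g).natDegree = g) (hi : ∀ g ∈ G, Irreducible (P g)) :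
    (∏ g ∈ G, P g).Separable := by
  refine separable_prod' ?_ fun g hg => PerfectField.separable_of_irreducible (hi g hg)
  intro g hg g' hg' hne
  refine ((hi g hg).isCoprime_or_dvd _).resolve_right ?_
  intro h
  apply hne
  have h1 : Associated (P g) (P g') := (hi g hg).associated_of_dvd (hi g' hg') h
  rw [← hd g hg, ← hd g' hg', natDegree_eq_of_degree_eq (degree_eq_degree_of_associated h1)]

/-- the polynomial -/
theorem exists_pol (A k : Type) [CommRing A] [IsDomain A] [IsDiscreteValuationRing A]
    [Finite (IsLocalRing.ResidueField A)] [Field k] [CharZero k] [Algebra A k]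
    [IsFractionRing A k] (G : Finset ℕ) (hG : ∀ g ∈ G, 0 < g) :
    ∃ P : ℕ → A[X], (∀ g ∈ G, (P g).Monic ∧ (P g).natDegree = g ∧
        Irreducible ((P g).map (IsLocalRing.residue A)) ∧
        Irreducible ((P g).map (algebraMap A k))) ∧
      (∏ g ∈ G, P g).Monic ∧ (∏ g ∈ G, P g).natDegree = ∑ g ∈ G, g ∧
      ((∏ g ∈ G, P g).map (IsLocalRing.residue A)).Separable ∧
      ((∏ g ∈ G, P g).map (algebraMap A k)).Separable := by
  classical
  have h1 : ∀ g : ℕ, ∃ P : A[X], 0 < g → P.Monic ∧ P.natDegree = g ∧
      Irreducible (P.map (IsLocalRing.residue A)) ∧ Irreducible (P.map (algebraMap A k)) := by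
    intro g
    by_cases hg : 0 < g
    swap
    · exact ⟨0, fun h => absurd h hg⟩
    obtain ⟨p, hpm, hpd, hpi⟩ := exists_irr (IsLocalRing.ResidueField A) g hg
    have hl : p ∈ lifts (IsLocalRing.residue A) := by
      obtain ⟨q, hq⟩ := Polynomial.map_surjective (IsLocalRing.residue A)
        IsLocalRing.residue_surjective p
      exact (mem_lifts p).2 ⟨q, hq⟩
    obtain ⟨q, hq, hqd, hqm⟩ := lifts_and_natDegree_eq_and_monic hl hpm
    refine ⟨q, fun _ => ⟨hqm, by rw [hqd, hpd], by rw [hq]; exact hpi, ?_⟩⟩
    rw [← hqm.irreducible_iff_irreducible_map_fraction_map]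
    refine hqm.irreducible_of_irreducible_map (IsLocalRing.residue A) q ?_
    rw [hq]
    exact hpi
  choose P hP using h1
  have hP' : ∀ g ∈ G, (P g).Monic ∧ (P g).natDegree = g ∧
      Irreducible ((P g).map (IsLocalRing.residue A)) ∧
      Irreducible ((P g).map (algebraMap A k)) := fun g hg => hP g (hG g hg)
  refine ⟨P, hP', monic_prod_of_monic _ _ fun g hg => (hP' g hg).1, ?_, ?_, ?_⟩
  · rw [natDegree_prod_of_monic _ _ fun g hg => (hP' g hg).1]
    exact Finset.sum_congr rfl fun g hg => (hP' g hg).2.1
  · rw [Polynomial.map_prod]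
    refine sep_prod G _ (fun g hg => ?_) fun g hg => (hP' g hg).2.2.1
    rw [(hP' g hg).1.natDegree_map, (hP' g hg).2.1]
  · rw [Polynomial.map_prod]
    refine sep_prod G _ (fun g hg => ?_) fun g hg => (hP' g hg).2.2.2
    rw [(hP' g hg).1.natDegree_map, (hP' g hg).2.1]

/-- the degree of an irreducible polynomial with a root in an extension of finite fields -/
theorem root_dvd {κ κ' : Type} [Field κ] [Finite κ] [Field κ'] [Finite κ'] (j : κ →+* κ') {d : ℕ}
    (hc : Nat.card κ' = Nat.card κ ^ d) (P : κ[X]) (hi : Irreducible P) (z : κ')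
    (hz : (P.map j).eval z = 0) : P.natDegree ∣ d := by
  letI : Algebra κ κ' := j.toAlgebra
  haveI : Module.Finite κ κ' := Module.Finite.of_finite
  have h1 : Module.finrank κ κ' = d := by
    have h2 := Module.natCard_eq_pow_finrank (K := κ) (V := κ')
    rw [hc] at h2
    exact (Nat.pow_right_injective (Finite.one_lt_card (α := κ)) h2).symm
  have h2 : minpoly κ z ∣ P := minpoly.dvd κ z (by
    rw [aeval_def, ← eval_map]
    exact hz)
  have h3 : Associated (minpoly κ z) P :=
    (minpoly.irreducible (IsIntegral.of_finite κ z)).associated_of_dvd hi h2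
  rw [← natDegree_eq_of_degree_eq (degree_eq_degree_of_associated h3), ← h1]
  exact minpoly.degree_dvd (IsIntegral.of_finite κ z)

end Pool.Agent.J4H44.DG
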