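import Pool.Agent.J4H44.DG.Mon
import Pool.Agent.J4H44.DG.Pol
import Pool.Agent.J4H44.DG.Ext
import Pool.Agent.J4H44.FP.Sec

/-!
# Curves `a y^n = f(x)` with given degree monoids: local part

(helper44, project DG.)
-/

set_option autoImplicit false
set_option linter.all false

open Polynomial

namespace Pool.Agent.J4H44.DG

open Pool.Agent.J4H44.FP

/-- the curve `a y^ℓ = f(x)` has no points and sections, for some prime divisor `ℓ` of `n` -/
def FineN (n : ℕ) {k : Type} [Field k] (a : k) (f : k[X]) : Prop :=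
  ∃ ℓ : ℕ, ℓ.Prime ∧ ℓ ∣ n ∧ FineX ℓ a (fun _ : Fin 0 => (0 : k)) f (fun _ => 0)

theorem fine_dvr {B L : Type} [CommRing B] [IsDomain B] [IsDiscreteValuationRing B]
    [Finite (IsLocalRing.ResidueField B)] [Field L] [CharZero L] [Algebra B L] [IsFractionRing B L]
    {n : ℕ} (hn : n ≠ 0) (hsq : Squarefree n) (hu : IsUnit (n : B)) (f : B[X])
    (hf : IsUnit f.leadingCoeff)
    (hs : (f.map (IsLocalRing.residue B)).Separable) (hd : n ∣ f.natDegree)
    (h3 : 3 ≤ f.natDegree) (hroot : ∀ c : B, f.eval c ∉ IsLocalRing.maximalIdeal B)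
    (ϖ : B) (hϖ : Irreducible ϖ) (a : L) (M : ℤ) (hM : ¬ (n : ℤ) ∣ M) (t : B) (ht : IsUnit t)
    (ha : a = algebraMap B L t * algebraMap B L ϖ ^ M) :
    FineN n a (f.map (algebraMap B L)) := by
  obtain ⟨ℓ, hℓ, hℓn, hℓM⟩ := exists_prime hn hsq (e := M.natAbs) (by
    intro h
    exact hM (Int.natCast_dvd.2 h))
  haveI : Fact ℓ.Prime := ⟨hℓ⟩
  have hℓu : IsUnit (ℓ : B) := isUnit_of_dvd_unit (Nat.cast_dvd_cast hℓn) hu
  have key := fineX (A := B) (k := L) (ℓ := ℓ) hℓu f f (r := 0) (fun _ => 0) hf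
    (fun i => i.elim0) (by
      rw [Finset.univ_eq_empty, Finset.prod_empty, mul_one]
      exact hs) (hℓn.trans hd) (fun i => i.elim0) (by
      rw [Finset.univ_eq_empty, Finset.prod_empty, mul_one]
      exact h3) (fun _ => 0) (fun _ => 0) (fun i => i.elim0) hf hroot (by
      intro κ _ _ _ e c he _
      rw [Finset.univ_eq_empty, Finset.sum_empty, add_zero]
      exact he) ϖ hϖ a M (by
      intro h
      exact hℓM (Int.natCast_dvd.1 h)) t ht ha
  refine ⟨ℓ, hℓ, hℓn, ?_⟩
  have e1 : (fun i : Fin 0 => algebraMap B L ((fun _ => (0 : B)) i)) = fun _ => 0 :=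
    Subsingleton.elim _ _
  have e2 : (fun i : Fin 0 => ((fun _ => (0 : B[X])) i).map (algebraMap B L)) = fun _ => 0 :=
    Subsingleton.elim _ _
  rw [e1, e2] at key
  exact key

/-- the monoid generated by the degrees of the points of `a y^n = f(x)` -/
def PD (n : ℕ) {k : Type} [Field k] (a : k) (f : k[X]) : AddSubmonoid ℕ :=
  AddSubmonoid.closure {d | ∃ (L : Type) (_ : Field L) (_ : Algebra k L), Module.Finite k L ∧
    Module.finrank k L = d ∧ ∃ x y : L, algebraMap k L a * y ^ n = aeval x f}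

theorem nd_mem {k : Type} [Field k] (T : AddSubmonoid ℕ) (p : k[X]) :
    p ≠ 0 → (∀ q : k[X], Irreducible q → q ∣ p → q.natDegree ∈ T) → p.natDegree ∈ T := by
  refine WfDvdMonoid.induction_on_irreducible p ?_ ?_ ?_
  · intro h
    exact absurd rfl h
  · intro u hu _ _
    rw [natDegree_eq_zero_of_isUnit hu]
    exact T.zero_mem
  · intro a i ha hi ih _ h
    rw [natDegree_mul hi.ne_zero ha]
    exact T.add_mem (h i hi (dvd_mul_right _ _)) (ih ha fun q hq hqa => h q hq (hqa.mul_left _))

/-- the degrees of the roots -/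
theorem pd_dvd {k : Type} [Field k] {n : ℕ} (hn : n ≠ 0) (a : k) (f P : k[X])
    (hP : Irreducible P) (hPf : P ∣ f) : P.natDegree ∈ PD n a f := by
  haveI : Fact (Irreducible P) := ⟨hP⟩
  refine AddSubmonoid.subset_closure ⟨AdjoinRoot P, inferInstance, inferInstance,
    (AdjoinRoot.powerBasis hP.ne_zero).finite, ?_, AdjoinRoot.root P, 0, ?_⟩
  · rw [(AdjoinRoot.powerBasis hP.ne_zero).finrank, AdjoinRoot.powerBasis_dim]
  · rw [zero_pow hn, mul_zero, AdjoinRoot.aeval_eq, eq_comm, AdjoinRoot.mk_eq_zero]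
    exact hPf

/-- the fibre over `0` -/
theorem pd_n {k : Type} [Field k] {n : ℕ} (hn : n ≠ 0) (a : k) (ha : a ≠ 0) (f : k[X]) :
    n ∈ PD n a f := by
  have h1 : (X ^ n - C (f.eval 0 / a) : k[X]).natDegree = n := natDegree_X_pow_sub_C
  have h2 := nd_mem (PD n a f) (X ^ n - C (f.eval 0 / a)) (X_pow_sub_C_ne_zero
    (Nat.pos_of_ne_zero hn) _) (by
    intro q hq hqd
    haveI : Fact (Irreducible q) := ⟨hq⟩
    refine AddSubmonoid.subset_closure ⟨AdjoinRoot q, inferInstance, inferInstance,
      (AdjoinRoot.powerBasis hq.ne_zero).finite, ?_, 0, AdjoinRoot.root q, ?_⟩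
    · rw [(AdjoinRoot.powerBasis hq.ne_zero).finrank, AdjoinRoot.powerBasis_dim]
    · have h3 : aeval (AdjoinRoot.root q) (X ^ n - C (f.eval 0 / a) : k[X]) = 0 := by
        rw [AdjoinRoot.aeval_eq, AdjoinRoot.mk_eq_zero]
        exact hqd
      rw [map_sub, map_pow, aeval_X, aeval_C, sub_eq_zero] at h3
      have h4 : aeval (0 : AdjoinRoot q) f = algebraMap k (AdjoinRoot q) (f.eval 0) := by
        have h5 := aeval_algebraMap_apply (AdjoinRoot q) (0 : k) f
        rw [map_zero] at h5
        rw [h5]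
        rfl
      rw [h3, h4, ← map_mul, mul_div_cancel₀ _ ha])
  rwa [h1] at h2

/-- points over fields of degree not in `S` -/
theorem pd_le {k : Type} [Field k] {n : ℕ} (a : k) (f : k[X]) (S : AddSubmonoid ℕ)
    (h : ∀ (L : Type) [Field L] [Algebra k L] [Module.Finite k L], Module.finrank k L ∉ S →
      FineN n (algebraMap k L a) (f.map (algebraMap k L))) : PD n a f ≤ S := by
  rw [PD, AddSubmonoid.closure_le]
  rintro d ⟨L, _, _, hfin, rfl, x, y, hxy⟩
  by_contra hd
  obtain ⟨ℓ, hℓ, ⟨n', rfl⟩, -, h2, -, -⟩ := h L hd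
  refine h2 x (y ^ n') (fun i => i.elim0) ?_ (fun i => i.elim0)
  rw [← pow_mul, mul_comm n' ℓ, hxy, eval_map_algebraMap]

/-- the local theorem -/
theorem locN (A k : Type) [CommRing A] [IsDomain A] [IsDiscreteValuationRing A]
    [Finite (IsLocalRing.ResidueField A)] [Field k] [CharZero k] [Algebra A k]
    [IsFractionRing A k] {n : ℕ} (hn : n ≠ 0) (hsq : Squarefree n) (hu : IsUnit (n : A))
    (S : AddSubmonoid ℕ) (hS : n ∈ S) :
    ∃ f : A[X], f.Monic ∧ (f.map (algebraMap A k)).Separable ∧ n ∣ f.natDegree ∧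
      6 ≤ f.natDegree ∧ (∀ a : k, a ≠ 0 → S ≤ PD n a (f.map (algebraMap A k))) ∧
      ∀ (ϖ t : A) (m : ℤ), Irreducible ϖ → IsUnit t → IsCoprime m (n : ℤ) →
        ∀ (L : Type) [Field L] [Algebra k L] [Module.Finite k L], Module.finrank k L ∉ S →
          FineN n (algebraMap k L (algebraMap A k t * algebraMap A k ϖ ^ m))
            ((f.map (algebraMap A k)).map (algebraMap k L)) := by
  classical
  obtain ⟨G, hG, hSG, hdG, h6⟩ := exists_gen S n (Nat.pos_of_ne_zero hn) hS
  obtain ⟨P, hP, hm, hdeg, hres, hsep⟩ := exists_pol A k G fun g hg => (hG g hg).1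
  set f : A[X] := ∏ g ∈ G, P g with hf
  refine ⟨f, hm, hsep, by rw [hdeg]; exact hdG, by rw [hdeg]; exact h6, ?_, ?_⟩
  · intro a ha
    rw [hSG, AddSubmonoid.closure_le]
    intro g hg
    rcases Set.mem_insert_iff.1 hg with rfl | hg
    · exact pd_n hn a ha _
    · have hg' : g ∈ G := Finset.mem_coe.1 hg
      have h1 := pd_dvd hn a (f.map (algebraMap A k)) ((P g).map (algebraMap A k))
        (hP g hg').2.2.2 (Polynomial.map_dvd _ (Finset.dvd_prod_of_mem P hg'))
      rw [(hP g hg').1.natDegree_map, (hP g hg').2.1] at h1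
      exact h1
  · intro ϖ t m hϖ ht hcop L _ _ _ hL
    obtain ⟨B, _, _, _, _, ρ, e, d, hfin, hfr, hcomp, hed, hcard, hmax, hval⟩ :=
      exists_B A k L S hL
    haveI : CharZero L := charZero_of_injective_algebraMap (algebraMap k L).injective
    obtain ⟨ϖ', t', hϖ', ht', hρϖ⟩ := hval ϖ hϖ
    have hBL : Function.Injective (algebraMap B L) := IsFractionRing.injective B L
    have hAk : Function.Injective (algebraMap A k) := IsFractionRing.injective A k
    have hρinj : Function.Injective ρ := by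
      intro c c' hcc
      apply hAk
      apply (algebraMap k L).injective
      rw [← hcomp, ← hcomp, hcc]
    have hne : ¬ n ∣ e := by
      rintro ⟨j, rfl⟩
      apply hed
      have h1 : n * j * d = (j * d) • n := by
        rw [smul_eq_mul]
        ring
      rw [h1]
      exact S.nsmul_mem hS _
    obtain ⟨u, hut⟩ := ht'
    -- the residue fields
    haveI : IsLocalHom ρ := by
      refine ⟨fun c hc => ?_⟩
      by_contra h
      exact (IsLocalRing.mem_maximalIdeal _).1 (hmax c ((IsLocalRing.mem_maximalIdeal _).2 h)) hc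
    let j : IsLocalRing.ResidueField A →+* IsLocalRing.ResidueField B := IsLocalRing.ResidueField.map ρ
    have hj : (IsLocalRing.residue B).comp ρ = j.comp (IsLocalRing.residue A) := by
      ext c
      rfl
    have hfmap : (f.map ρ).map (IsLocalRing.residue B) = (f.map (IsLocalRing.residue A)).map j := by
      rw [Polynomial.map_map, hj, ← Polynomial.map_map]
    have hmapL : (f.map (algebraMap A k)).map (algebraMap k L) =
        (f.map ρ).map (algebraMap B L) := by
      rw [Polynomial.map_map, Polynomial.map_map]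
      congr 1
      ext c
      exact (hcomp c).symm
    rw [hmapL]
    refine fine_dvr hn hsq (by
      have h1 := hu.map ρ
      rwa [map_natCast] at h1) (f.map ρ) (by
      rw [(hm.map ρ).leadingCoeff]
      exact isUnit_one) (by
      rw [hfmap]
      exact hres.map) (by
      rw [hm.natDegree_map, hdeg]
      exact hdG) (by
      rw [hm.natDegree_map, hdeg]
      omega) ?_ ϖ' hϖ' _ ((e : ℤ) * m) ?_ (ρ t * ((u ^ m : Bˣ) : B)) ?_ ?_
    · intro c hc
      have h1 : IsLocalRing.residue B ((f.map ρ).eval c) = 0 :=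
        (IsLocalRing.residue_eq_zero_iff _).2 hc
      rw [← eval₂_at_apply, ← eval_map, hfmap, hf, Polynomial.map_prod, Polynomial.map_prod,
        eval_prod, Finset.prod_eq_zero_iff] at h1
      obtain ⟨g, hg, hg0⟩ := h1
      have h2 := root_dvd j hcard _ (hP g hg).2.2.1 _ hg0
      rw [(hP g hg).1.natDegree_map, (hP g hg).2.1] at h2
      obtain ⟨i, rfl⟩ := h2
      apply hed
      have h3 : e * (g * i) = (e * i) • g := by
        rw [smul_eq_mul]
        ring
      rw [h3]
      exact S.nsmul_mem (hG g hg).2 _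
    · intro h
      apply hne
      have h1 : (n : ℤ) ∣ (e : ℤ) := hcop.symm.dvd_of_dvd_mul_right h
      exact_mod_cast h1
    · exact (ht.map ρ).mul (u ^ m).isUnit
    · have hu0 : algebraMap B L (u : B) ≠ 0 := by
        rw [Ne, map_eq_zero_iff _ hBL]
        exact u.ne_zero
      have hum : algebraMap B L ((u ^ m : Bˣ) : B) = algebraMap B L (u : B) ^ m := by
        have h2 : ((Units.map (algebraMap B L : B →* L) (u ^ m) : Lˣ) : L) =
            ((Units.map (algebraMap B L : B →* L) u ^ m : Lˣ) : L) := by rw [map_zpow]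
        rw [Units.val_zpow_eq_zpow_val] at h2
        exact h2
      rw [map_mul, map_zpow₀, ← hcomp, ← hcomp, hρϖ, ← hut, map_mul, map_mul, map_pow, mul_zpow,
        hum, ← zpow_natCast, ← zpow_mul, mul_assoc]

end Pool.Agent.J4H44.DG
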