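import Mathlib

/-!
# Squarefree elements of a submonoid of the natural numbers

(helper44, project DG.)
-/

set_option autoImplicit false
set_option linter.all false

namespace Pool.Agent.J4H44.DG

/-- a submonoid whose gcd is squarefree and prime to `p` contains a squarefree `n > 1` prime to
`p` -/
theorem exists_n (S : AddSubmonoid ℕ) (hS : ∀ q : ℕ, q.Prime → ¬ ∀ s ∈ S, q ^ 2 ∣ s) (p : ℕ)
    (hp : p.Prime) (hpS : ¬ ∀ s ∈ S, p ∣ s) :
    ∃ n : ℕ, n ∈ S ∧ 1 < n ∧ Squarefree n ∧ ¬ p ∣ n := by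
  set d : ℕ := Nat.setGcd (S : Set ℕ) with hd
  have hdS : ∀ q : ℕ, q ∣ d ↔ ∀ s ∈ S, q ∣ s := fun q => Nat.dvd_setGcd_iff
  have hd0 : d ≠ 0 := by
    intro h0
    apply hpS
    rw [← hdS, h0]
    exact dvd_zero _
  obtain ⟨N, hN⟩ := Nat.exists_mem_closure_of_ge (S : Set ℕ)
  rw [AddSubmonoid.closure_eq] at hN
  obtain ⟨q, hqN, hq⟩ := Nat.exists_infinite_primes (N + d + p + 1)
  have hdpos : 0 < d := Nat.pos_of_ne_zero hd0
  have hcop : Nat.Coprime d q := by
    refine Nat.Coprime.symm ((Nat.Prime.coprime_iff_not_dvd hq).2 ?_)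
    intro h
    have := Nat.le_of_dvd hdpos h
    omega
  refine ⟨d * q, ?_, ?_, ?_, ?_⟩
  · refine hN (d * q) ?_ (dvd_mul_right _ _)
    have h1 : q ≤ d * q := Nat.le_mul_of_pos_left _ hdpos
    omega
  · have h1 : q ≤ d * q := Nat.le_mul_of_pos_left _ hdpos
    have h2 := hq.two_le
    omega
  · rw [Nat.squarefree_mul hcop]
    refine ⟨?_, hq.prime.squarefree⟩
    rw [Nat.squarefree_iff_prime_squarefree]
    intro r hr h
    apply hS r hr
    rw [← hdS, pow_two]
    exact h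
  · intro h
    rcases hp.dvd_mul.1 h with h1 | h1
    · exact hpS ((hdS p).1 h1)
    · have h2 := (Nat.prime_dvd_prime_iff_eq hp hq).1 h1
      omega

end Pool.Agent.J4H44.DG
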