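import Mathlib

/-!
# Generators of a submonoid of the natural numbers

(helper44, project DG.)
-/

set_option autoImplicit false
set_option linter.all false

namespace Pool.Agent.J4H44.DG

/-- generators of `S` besides `n`, whose sum is divisible by `n` -/
theorem exists_gen (S : AddSubmonoid ℕ) (n : ℕ) (hn : 0 < n) (hS : n ∈ S) :
    ∃ G : Finset ℕ, (∀ g ∈ G, 0 < g ∧ g ∈ S) ∧
      S = AddSubmonoid.closure (insert n (G : Set ℕ)) ∧ n ∣ ∑ g ∈ G, g ∧ 6 ≤ ∑ g ∈ G, g := by
  classical
  have hmul : ∀ t : ℕ, n * t ∈ S := by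
    intro t
    have h1 := S.nsmul_mem hS t
    rwa [smul_eq_mul, mul_comm] at h1
  have hmulr : ∀ (t : ℕ) (s : ℕ), s ∈ S → t * s ∈ S := by
    intro t s hs
    have h1 := S.nsmul_mem hs t
    rwa [smul_eq_mul] at h1
  set G₀ : Set ℕ := {g | g ∈ S ∧ 0 < g ∧ ¬ (n ≤ g ∧ g - n ∈ S)} with hG₀
  have hfin : G₀.Finite := by
    refine Set.Finite.of_injOn (f := fun g => g % n) (t := (Finset.range n : Set ℕ)) ?_ ?_
      (Finset.finite_toSet _)
    · intro g _
      exact Finset.mem_coe.2 (Finset.mem_range.2 (Nat.mod_lt _ hn))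
    · have key : ∀ g ∈ G₀, ∀ g' ∈ G₀, g % n = g' % n → ¬ g < g' := by
        rintro g ⟨h1, -, -⟩ g' ⟨-, -, h3⟩ hgg hlt
        have hdvd : n ∣ g' - g := (Nat.modEq_iff_dvd' hlt.le).1 hgg
        obtain ⟨t, ht⟩ := hdvd
        have ht0 : t ≠ 0 := by
          rintro rfl
          omega
        obtain ⟨t', rfl⟩ := Nat.exists_eq_succ_of_ne_zero ht0
        have h4 : n * (t' + 1) = n * t' + n := by ring
        rw [Nat.succ_eq_add_one, h4] at ht
        apply h3
        refine ⟨by omega, ?_⟩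
        have h5 : g' - n = g + n * t' := by omega
        rw [h5]
        exact S.add_mem h1 (hmul t')
      intro g hg g' hg' hgg
      rcases lt_trichotomy g g' with h | h | h
      · exact absurd h (key g hg g' hg' hgg)
      · exact h
      · exact absurd h (key g' hg' g hg hgg.symm)
  set G₁ : Finset ℕ := hfin.toFinset with hG₁
  have hmem : ∀ g, g ∈ G₁ ↔ g ∈ S ∧ 0 < g ∧ ¬ (n ≤ g ∧ g - n ∈ S) := fun g => hfin.mem_toFinset
  set T₀ : ℕ := ∑ g ∈ G₁, g with hT
  have hTS : T₀ ∈ S := S.sum_mem fun g hg => ((hmem g).1 hg).1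
  set M : ℕ := (n - 1) * T₀ + n * (T₀ + 6) with hM
  have hMS : M ∈ S := S.add_mem (hmulr _ _ hTS) (hmul _)
  have hMT : T₀ < M := by
    rw [hM]
    have h1 : T₀ + 6 ≤ n * (T₀ + 6) := Nat.le_mul_of_pos_left _ hn
    omega
  have hMG : M ∉ G₁ := by
    intro h
    have h1 : M ≤ T₀ := Finset.single_le_sum (f := fun g : ℕ => g) (fun _ _ => Nat.zero_le _) h
    omega
  have hsum : ∑ g ∈ insert M G₁, g = n * (2 * T₀ + 6) := by
    rw [Finset.sum_insert hMG, ← hT, hM]
    obtain ⟨n', rfl⟩ := Nat.exists_eq_succ_of_ne_zero hn.ne'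
    simp only [Nat.succ_eq_add_one, Nat.add_sub_cancel]
    ring
  refine ⟨insert M G₁, ?_, ?_, ?_, ?_⟩
  · intro g hg
    rcases Finset.mem_insert.1 hg with rfl | hg
    · exact ⟨by omega, hMS⟩
    · exact ⟨((hmem g).1 hg).2.1, ((hmem g).1 hg).1⟩
  · apply le_antisymm
    · intro s
      induction s using Nat.strong_induction_on with
      | _ s ih =>
        intro hs
        rcases Nat.eq_zero_or_pos s with rfl | hpos
        · exact AddSubmonoid.zero_mem _
        · by_cases h1 : n ≤ s ∧ s - n ∈ S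
          · have h2 := ih (s - n) (by omega) h1.2
            have h3 : s = (s - n) + n := by omega
            rw [h3]
            exact AddSubmonoid.add_mem _ h2 (AddSubmonoid.subset_closure (Set.mem_insert _ _))
          · refine AddSubmonoid.subset_closure (Set.mem_insert_of_mem _ ?_)
            rw [Finset.coe_insert]
            exact Set.mem_insert_of_mem _ (Finset.mem_coe.2 ((hmem s).2 ⟨hs, hpos, h1⟩))
    · rw [AddSubmonoid.closure_le]
      intro s hs
      rcases Set.mem_insert_iff.1 hs with rfl | hs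
      · exact hS
      · rw [Finset.coe_insert] at hs
        rcases Set.mem_insert_iff.1 hs with rfl | hs
        · exact hMS
        · exact ((hmem s).1 (Finset.mem_coe.1 hs)).1
  · rw [hsum]
    exact dvd_mul_right _ _
  · rw [hsum]
    have h1 : 2 * T₀ + 6 ≤ n * (2 * T₀ + 6) := Nat.le_mul_of_pos_left _ hn
    omega

/-- a squarefree number divides `e` if all its prime factors do -/
theorem exists_prime {n e : ℕ} (hn : n ≠ 0) (hsq : Squarefree n) (h : ¬ n ∣ e) :
    ∃ ℓ : ℕ, ℓ.Prime ∧ ℓ ∣ n ∧ ¬ ℓ ∣ e := by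
  by_contra hcon
  push Not at hcon
  apply h
  rw [← Nat.prod_primeFactors_of_squarefree hsq]
  refine Finset.prod_primes_dvd e (fun p hp => (Nat.prime_of_mem_primeFactors hp).prime) ?_
  intro p hp
  exact hcon p (Nat.prime_of_mem_primeFactors hp) (Nat.dvd_of_mem_primeFactors hp)

end Pool.Agent.J4H44.DG
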