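import Pool.Agent.J4H44.DG.Pol

/-!
# An element of the Galois group with given cycles on the roots

(helper44, project DG.)
-/

set_option autoImplicit false
set_option linter.all false

open Polynomial NumberField IsDedekindDomain

namespace Pool.Agent.J4H44.DG

/-- monic lifts of irreducible polynomials -/
theorem exists_lift {R κ : Type} [CommRing R] [Field κ] [Finite κ] (φ : R →+* κ)
    (hφ : Function.Surjective φ) (g : ℕ) (hg : 0 < g) :
    ∃ P : R[X], P.Monic ∧ P.natDegree = g ∧ Irreducible (P.map φ) := by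
  obtain ⟨p, hpm, hpd, hpi⟩ := exists_irr κ g hg
  have hl : p ∈ lifts φ := by
    obtain ⟨q, hq⟩ := Polynomial.map_surjective φ hφ p
    exact (mem_lifts p).2 ⟨q, hq⟩
  obtain ⟨q, hq, hqd, hqm⟩ := lifts_and_natDegree_eq_and_monic hl hpm
  exact ⟨q, hqm, by rw [hqd, hpd], by rw [hq]; exact hpi⟩

/-- an irreducible polynomial over a finite field `κ` with a root `z`, `z ^ (q ^ d) = z` -/
theorem dvd_of_frob {κ κ' : Type} [Field κ] [Field κ'] (j : κ →+* κ') {d : ℕ}
    (P : κ[X]) (hi : Irreducible P) (z : κ') (hz : (P.map j).eval z = 0)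
    (hd : z ^ (Nat.card κ) ^ d = z) : P.natDegree ∣ d := by
  letI : Algebra κ κ' := j.toAlgebra
  have hz' : aeval z P = 0 := by
    rw [aeval_def, ← eval_map]
    exact hz
  have hint : IsIntegral κ z := isAlgebraic_iff_isIntegral.1 ⟨P, hi.ne_zero, hz'⟩
  have h2 : minpoly κ z ∣ P := minpoly.dvd κ z hz'
  have h3 : Associated (minpoly κ z) P :=
    (minpoly.irreducible hint).associated_of_dvd hi h2
  refine hi.natDegree_dvd_of_dvd_X_pow_card_pow_sub_X ?_
  refine h3.symm.dvd.trans (minpoly.dvd κ z ?_)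
  rw [map_sub, map_pow, aeval_X, hd, sub_self]

theorem exists_sigma (K : Type) [Field K] [NumberField K] (v : Ideal (𝓞 K)) [hv : v.IsMaximal]
    (hv0 : v ≠ ⊥) (G : Finset ℕ) (P : ℕ → (𝓞 K)[X])
    (hP : ∀ g ∈ G, (P g).Monic ∧ (P g).natDegree = g ∧
      Irreducible ((P g).map (Ideal.Quotient.mk v))) :
    ∃ σ : AlgebraicClosure K ≃ₐ[K] AlgebraicClosure K, ∀ g ∈ G, ∀ (d : ℕ)
      (θ : AlgebraicClosure K), aeval θ ((P g).map (algebraMap (𝓞 K) K)) = 0 → (σ ^ d) θ = θ →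
        g ∣ d := by
  classical
  set f : K[X] := ∏ g ∈ G, (P g).map (algebraMap (𝓞 K) K) with hf
  have hf0 : f ≠ 0 := by
    rw [hf]
    refine Finset.prod_ne_zero_iff.2 fun g hg => ?_
    exact ((hP g hg).1.map _).ne_zero
  let M : IntermediateField K (AlgebraicClosure K) :=
    IntermediateField.adjoin K (f.rootSet (AlgebraicClosure K))
  haveI hsf : f.IsSplittingField K M :=
    IntermediateField.adjoin_rootSet_isSplittingField (IsAlgClosed.splits _)
  haveI : FiniteDimensional K M := Polynomial.IsSplittingField.finiteDimensional M f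
  haveI : Normal K M := Normal.of_isSplittingField f
  haveI : IsGalois K M := ⟨⟩
  haveI : NumberField M := NumberField.of_module_finite K M
  obtain ⟨Q, hQ, hQv⟩ := Ideal.exists_maximal_ideal_liesOver_of_isIntegral (S := 𝓞 M) v
  have hunder : Q.under (𝓞 K) = v := (hQv.over).symm
  have hQ0 : Q ≠ ⊥ := Ideal.ne_bot_of_liesOver_of_ne_bot hv0 Q
  haveI : Finite (𝓞 M ⧸ Q) := Ring.HasFiniteQuotients.finiteQuotient hQ0
  obtain ⟨σ₀, hσ₀⟩ := IsArithFrobAt.exists_of_isInvariant (𝓞 K) Gal(M/K) Q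
  obtain ⟨σ, hσ⟩ := AlgEquiv.restrictNormalHom_surjective (E := AlgebraicClosure K) (K₁ := M) σ₀
  refine ⟨σ, ?_⟩
  intro g hg d θ hθ hd
  letI : Field (𝓞 K ⧸ v) := Ideal.Quotient.field v
  letI : Field (𝓞 M ⧸ Q) := Ideal.Quotient.field Q
  have hfθ : aeval θ f = 0 := by
    rw [hf, map_prod]
    exact Finset.prod_eq_zero hg hθ
  have hθM : θ ∈ M := IntermediateField.subset_adjoin K _ ((mem_rootSet_of_ne hf0).2 hfθ)
  -- the integral element
  have hθint : IsIntegral (𝓞 K) (⟨θ, hθM⟩ : M) := by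
    refine ⟨P g, (hP g hg).1, ?_⟩
    apply Subtype.ext
    have h1 : ((eval₂ (algebraMap (𝓞 K) M) (⟨θ, hθM⟩ : M) (P g) : M) : AlgebraicClosure K) =
        eval₂ ((algebraMap M (AlgebraicClosure K)).comp (algebraMap (𝓞 K) M)) θ (P g) :=
      (Polynomial.hom_eval₂ (P g) (algebraMap (𝓞 K) M) (algebraMap M (AlgebraicClosure K))
        (⟨θ, hθM⟩ : M))
    rw [h1]
    have h2 : aeval θ ((P g).map (algebraMap (𝓞 K) K)) =
        eval₂ ((algebraMap K (AlgebraicClosure K)).comp (algebraMap (𝓞 K) K)) θ (P g) := by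
      rw [aeval_def, eval₂_map]
    rw [h2] at hθ
    exact hθ
  haveI : IsScalarTower ℤ (𝓞 K) M := IsScalarTower.of_algebraMap_eq' (Subsingleton.elim _ _)
  have hθZ : IsIntegral ℤ (⟨θ, hθM⟩ : M) := isIntegral_trans (A := 𝓞 K) _ hθint
  let x : 𝓞 M := ⟨⟨θ, hθM⟩, hθZ⟩
  have hx : ((x : M) : AlgebraicClosure K) = θ := rfl
  have hact : ∀ (i : ℕ), (((σ₀ ^ i) • x : 𝓞 M) : M) = (σ₀ ^ i) (x : M) := by
    intro i
    rfl
  have hres : ∀ (i : ℕ) (y : M), (((σ₀ ^ i) y : M) : AlgebraicClosure K) =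
      (σ ^ i) (y : AlgebraicClosure K) := by
    intro i y
    rw [← hσ, ← map_pow]
    exact AlgEquiv.restrictNormal_commutes (σ ^ i) M y
  have hfrob : ∀ (i : ℕ) (y : 𝓞 M), Ideal.Quotient.mk Q ((σ₀ ^ i) • y) =
      Ideal.Quotient.mk Q y ^ (Nat.card (𝓞 K ⧸ v)) ^ i := by
    intro i
    induction i with
    | zero =>
      intro y
      rw [pow_zero, one_smul, pow_zero, pow_one]
    | succ i ih =>
      intro y
      have h1 := hσ₀ ((σ₀ ^ i) • y)
      rw [hunder, ← Ideal.Quotient.eq, map_pow] at h1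
      have h2 : (MulSemiringAction.toAlgHom (𝓞 K) (𝓞 M) σ₀) ((σ₀ ^ i) • y) =
          (σ₀ ^ (i + 1)) • y := by
        rw [pow_succ', mul_smul]
        rfl
      rw [h2, ih y] at h1
      rw [h1, ← pow_mul, pow_succ]
  have hxd : (σ₀ ^ d) • x = x := by
    apply RingOfIntegers.ext
    apply Subtype.ext
    rw [hact, hres]
    exact hd
  have hkey := hfrob d x
  rw [hxd] at hkey
  let j : (𝓞 K ⧸ v) →+* (𝓞 M ⧸ Q) := algebraMap (𝓞 K ⧸ v) (𝓞 M ⧸ Q)
  have hjcomp : j.comp (Ideal.Quotient.mk v) = (Ideal.Quotient.mk Q).comp (algebraMap (𝓞 K) (𝓞 M)) := by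
    ext c
    rfl
  have hroot : (((P g).map (Ideal.Quotient.mk v)).map j).eval (Ideal.Quotient.mk Q x) = 0 := by
    rw [Polynomial.map_map, hjcomp, ← Polynomial.map_map, eval_map, eval₂_at_apply]
    have h1 : ((P g).map (algebraMap (𝓞 K) (𝓞 M))).eval x = 0 := by
      apply RingOfIntegers.ext
      apply Subtype.ext
      have h2 : ((((P g).map (algebraMap (𝓞 K) (𝓞 M))).eval x : 𝓞 M) : M) =
          eval₂ ((algebraMap (𝓞 M) M).comp (algebraMap (𝓞 K) (𝓞 M))) (x : M) (P g) := by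
        rw [eval_map]
        exact Polynomial.hom_eval₂ (P g) (algebraMap (𝓞 K) (𝓞 M)) (algebraMap (𝓞 M) M) x
      rw [h2]
      have h3 : ((eval₂ ((algebraMap (𝓞 M) M).comp (algebraMap (𝓞 K) (𝓞 M))) (x : M) (P g) : M) :
          AlgebraicClosure K) = eval₂ ((algebraMap M (AlgebraicClosure K)).comp
            ((algebraMap (𝓞 M) M).comp (algebraMap (𝓞 K) (𝓞 M)))) θ (P g) :=
        Polynomial.hom_eval₂ (P g) _ (algebraMap M (AlgebraicClosure K)) (x : M)
      rw [h3]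
      have h4 : aeval θ ((P g).map (algebraMap (𝓞 K) K)) =
          eval₂ ((algebraMap K (AlgebraicClosure K)).comp (algebraMap (𝓞 K) K)) θ (P g) := by
        rw [aeval_def, eval₂_map]
      rw [h4] at hθ
      exact hθ
    rw [h1, map_zero]
  have h5 := dvd_of_frob j ((P g).map (Ideal.Quotient.mk v)) (hP g hg).2.2
    (Ideal.Quotient.mk Q x) hroot hkey.symm
  rwa [(hP g hg).1.natDegree_map, (hP g hg).2.1] at h5

end Pool.Agent.J4H44.DG
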