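import Pool.Agent.J4H44.DG.Fin
import Pool.Agent.J4H44.DG.Sig
import Pool.Agent.J4H44.FP.NumA
import Pool.Agent.J4H44.FP.Den

/-!
# Curves `a y^n = f(x)` with given degree monoids: number fields

(helper44, project DG.)
-/

set_option autoImplicit false
set_option linter.all false

open Polynomial FF NumberField IsDedekindDomain

namespace Pool.Agent.J4H44.DG

open Pool.Agent.J4H44.FP

/-- over all discrete valuation rings over `v` with `e f ∉ S` the curves have neither points nor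
sections -/
def LocN (n : ℕ) {K : Type} [Field K] [NumberField K] (v : Ideal (𝓞 K)) (S : AddSubmonoid ℕ)
    (a : K) (f : K[X]) : Prop :=
  ∀ (A k : Type) [CommRing A] [IsDomain A] [IsDiscreteValuationRing A]
    [Finite (IsLocalRing.ResidueField A)] [Field k] [Algebra A k] [IsFractionRing A k]
    [Algebra K k] (e₁ f₁ : ℕ), Over v A k e₁ f₁ → e₁ * f₁ ∉ S →
      FineN n (algebraMap K k a) (f.map (algebraMap K k))

theorem FineN.scale {n : ℕ} {k : Type} [Field k] {a c : k} {f : k[X]}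
    (h : FineN n (c * a) (C c * f)) : FineN n a f := by
  obtain ⟨ℓ, hℓ, hn, h⟩ := h
  refine ⟨ℓ, hℓ, hn, ?_⟩
  refine FineX.scale (c := c) (d := fun _ => 0) ?_
  have e1 : (fun i : Fin 0 => (fun _ => (0 : k)) i * (fun _ : Fin 0 => (0 : k)) i) = fun _ => 0 :=
    Subsingleton.elim _ _
  have e2 : (fun i : Fin 0 => C ((fun _ => (0 : k)) i) * (fun _ : Fin 0 => (0 : k[X])) i) =
      fun _ => 0 := Subsingleton.elim _ _
  rw [e1, e2]
  exact h

theorem exists_primesN {K : Type} [Field K] [NumberField K] {n : ℕ} (hn : n ≠ 0)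
    (hsq : Squarefree n) (f : K[X])
    (hs : f.Separable) (hdf : n ∣ f.natDegree) (h3 : 3 ≤ f.natDegree)
    (σ : AlgebraicClosure K ≃ₐ[K] AlgebraicClosure K) (S : AddSubmonoid ℕ) (hSn : n ∈ S)
    (hS : ∀ (m : ℕ) (θ : AlgebraicClosure K), aeval θ f = 0 → (σ ^ m) θ = θ → m ∈ S)
    (c0 : 𝓞 K) (hc0 : c0 ≠ 0) (ε : ℝ) (hε : 0 < ε) :
    ∃ T : Finset (HeightOneSpectrum (𝓞 K)),
      (∀ v ∈ T, c0 ∉ v.asIdeal ∧ ∀ a : 𝓞 K, a ∈ v.asIdeal → a ∉ v.asIdeal ^ 2 →
        LocN n v.asIdeal S (algebraMap (𝓞 K) K a) f) ∧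
      ∏ v ∈ T, (1 - (1 / (Ideal.absNorm v.asIdeal : ℝ) -
        1 / (Ideal.absNorm v.asIdeal : ℝ) ^ 2)) < ε := by
  classical
  have hinj : Function.Injective (algebraMap (𝓞 K) K) := IsFractionRing.injective (𝓞 K) K
  obtain ⟨c1, f', hc1K, hc1, hf', hdf'⟩ := int_poly f
  have hf0 : f ≠ 0 := hs.ne_zero
  have hf'0 : f' ≠ 0 := by
    rintro rfl
    rw [Polynomial.map_zero] at hf'
    exact (mul_ne_zero (C_ne_zero.2 hc1K) hf0) hf'.symm
  have hfs : (f'.map (algebraMap (𝓞 K) K)).Separable := by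
    rw [hf']
    exact Separable.unit_mul (isUnit_C.2 hc1K.isUnit) hs
  obtain ⟨u, w, D, hD, huw⟩ := Pool.Agent.W723.SecC.sep_int K f' hfs
  have hf'σ : ∀ (m : ℕ) (θ : AlgebraicClosure K),
      aeval θ (f'.map (algebraMap (𝓞 K) K)) = 0 → (σ ^ m) θ = θ → m ∈ S := by
    intro m θ hθ hm
    refine hS m θ ?_ hm
    rw [hf', map_mul, aeval_C] at hθ
    exact (mul_eq_zero.1 hθ).resolve_left ((_root_.map_ne_zero _).2 hc1K)
  have hn0 : (n : 𝓞 K) ≠ 0 := by
    rw [Nat.cast_ne_zero]
    exact hn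
  obtain ⟨T, hT, hTε⟩ := frobX K f' (c0 * c1 * D * f'.leadingCoeff * (n : 𝓞 K))
    (mul_ne_zero (mul_ne_zero (mul_ne_zero (mul_ne_zero hc0 hc1) hD)
      (leadingCoeff_ne_zero.2 hf'0)) hn0) hf'0 σ ε hε
  refine ⟨T, ?_, hTε⟩
  intro v hv
  obtain ⟨hN, hlcv, p, hpp, hcard, hrv⟩ := hT v hv
  have hvp : v.asIdeal.IsPrime := v.isPrime
  have hvm : v.asIdeal.IsMaximal := v.isMaximal
  simp only [hvp.mul_mem_iff_mem_or_mem, not_or] at hN
  obtain ⟨⟨⟨⟨n0, n1⟩, nD⟩, nf⟩, nn⟩ := hN
  refine ⟨n0, ?_⟩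
  intro a ha ha' A k _ _ _ _ _ _ _ _ e₁ f₁ hover hef
  obtain ⟨ρ, hA, hmapv, hcardA⟩ := hover
  have hKk : Function.Injective (algebraMap K k) := (algebraMap K k).injective
  haveI : CharZero k := charZero_of_injective_algebraMap hKk
  have he1 : e₁ ≠ 0 := by
    rintro rfl
    apply hef
    rw [zero_mul]
    exact S.zero_mem
  have hne : ¬ n ∣ e₁ := by
    rintro ⟨j, rfl⟩
    apply hef
    have h1 : n * j * f₁ = (j * f₁) • n := by
      rw [smul_eq_mul]
      ring
    rw [h1]
    exact S.nsmul_mem hSn _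
  have hfσ : ∀ θ : AlgebraicClosure K, aeval θ (f'.map (algebraMap (𝓞 K) K)) = 0 →
      (σ ^ f₁) θ ≠ θ := by
    intro θ hθ h1
    apply hef
    rw [← smul_eq_mul]
    exact S.nsmul_mem (hf'σ f₁ θ hθ h1) _
  have hr' : (algebraMap A k).comp ρ = (algebraMap K k).comp (algebraMap (𝓞 K) K) :=
    RingHom.ext hA
  have hcomap : (IsLocalRing.maximalIdeal A).comap ρ = v.asIdeal := by
    refine (hvm.eq_of_le ?_ ?_).symm
    · exact Ideal.IsPrime.ne_top inferInstance
    · intro c hc
      rw [Ideal.mem_comap]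
      have h1 := Ideal.mem_map_of_mem ρ hc
      rw [hmapv] at h1
      exact Ideal.pow_le_self he1 h1
  have hunitr : ∀ c : 𝓞 K, c ∉ v.asIdeal → IsUnit (ρ c) := by
    intro c hc
    by_contra hu
    apply hc
    rw [← hcomap, Ideal.mem_comap]
    exact (IsLocalRing.mem_maximalIdeal _).2 hu
  set j : 𝓞 K →+* IsLocalRing.ResidueField A := (IsLocalRing.residue A).comp ρ with hj
  have hjker : RingHom.ker j = v.asIdeal := by
    ext c
    rw [RingHom.mem_ker, hj, RingHom.comp_apply, IsLocalRing.residue_eq_zero_iff, ← hcomap]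
    rfl
  have hinjr : Function.Injective ρ := by
    intro c c' hcc
    apply hinj
    apply hKk
    rw [← hA, ← hA, hcc]
  have hcb : c1 * a ∈ v.asIdeal := Ideal.mul_mem_left _ _ ha
  have hcb' : c1 * a ∉ v.asIdeal ^ 2 := by
    intro h
    rcases Ideal.IsMaximal.mul_mem_pow _ h with h1 | h1
    · exact n1 h1
    · exact ha' h1
  -- the valuation of `c1 * a`
  obtain ⟨ϖ, hϖ⟩ := IsDiscreteValuationRing.exists_irreducible A
  obtain ⟨t, ht, hbt⟩ : ∃ t : A, IsUnit t ∧ ρ (c1 * a) = t * ϖ ^ e₁ := by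
    have h1 : Ideal.span {ρ (c1 * a)} = Ideal.span {ϖ ^ e₁} := by
      have h2 : v.asIdeal ∣ Ideal.span {c1 * a} := by
        rw [Ideal.dvd_span_singleton]
        exact hcb
      obtain ⟨J, hJ⟩ := h2
      have h3 : ¬ J ≤ v.asIdeal := by
        intro h4
        apply hcb'
        have h5 : Ideal.span {c1 * a} ≤ v.asIdeal ^ 2 := by
          rw [hJ, pow_two]
          exact Ideal.mul_mono_right h4
        exact h5 (Ideal.mem_span_singleton_self _)
      obtain ⟨q, hqJ, hqv⟩ := Set.not_subset.1 h3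
      have h6 : J.map ρ = ⊤ := Ideal.eq_top_of_isUnit_mem _ (Ideal.mem_map_of_mem ρ hqJ)
        (hunitr q hqv)
      rw [← Set.image_singleton, ← Ideal.map_span, hJ, Ideal.map_mul, h6, Ideal.mul_top, hmapv,
        hϖ.maximalIdeal_eq, Ideal.span_singleton_pow]
    rw [Ideal.span_singleton_eq_span_singleton] at h1
    obtain ⟨u, hu⟩ := h1.symm
    exact ⟨u, u.isUnit, by rw [← hu, mul_comm]⟩
  have hmapK : ∀ q : (𝓞 K)[X], (q.map ρ).map (algebraMap A k) =
      (q.map (algebraMap (𝓞 K) K)).map (algebraMap K k) := fun q => by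
    rw [Polynomial.map_map, hr', Polynomial.map_map]
  have hlcA : ∀ q : (𝓞 K)[X], q.leadingCoeff ∉ v.asIdeal →
      IsUnit (q.map ρ).leadingCoeff := by
    intro q hq
    rw [leadingCoeff_map_of_injective hinjr]
    exact hunitr _ hq
  have hdegA : ∀ q : (𝓞 K)[X], (q.map ρ).natDegree = q.natDegree := fun q =>
    natDegree_map_eq_of_injective hinjr q
  have key := fine_dvr (B := A) (L := k) hn hsq (by
      have := hunitr _ nn
      rwa [map_natCast] at this)
    (f'.map ρ) (hlcA f' nf) (by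
      rw [Polynomial.map_map]
      have h1 := congrArg (fun q => q.map j) huw
      simp only [Polynomial.map_add, Polynomial.map_mul, map_C] at h1
      have hDv : j D ≠ 0 := by
        intro h
        apply nD
        rw [← hjker, RingHom.mem_ker, h]
      refine ⟨C (j D)⁻¹ * u.map j, C (j D)⁻¹ * w.map j, ?_⟩
      rw [derivative_map, mul_assoc, mul_assoc, ← mul_add, h1, ← C_mul,
        inv_mul_cancel₀ hDv, C_1])
    (by rw [hdegA, hdf']; exact hdf)
    (by rw [hdegA, hdf']; exact h3) (by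
      intro c hc
      have h3 : IsLocalRing.residue A ((f'.map ρ).eval c) = 0 :=
        (IsLocalRing.residue_eq_zero_iff _).2 hc
      rw [← eval₂_at_apply, ← eval_map, Polynomial.map_map, eval_map] at h3
      exact hrv f₁ hfσ (IsLocalRing.ResidueField A) j hjker (by rw [hcardA, hcard]) _ h3)
    ϖ hϖ (algebraMap K k (algebraMap (𝓞 K) K (c1 * a))) e₁ (by
      intro h
      exact hne (by exact_mod_cast h)) t ht (by
        rw [← hA, hbt, map_mul, map_pow, zpow_natCast])
  rw [hmapK, hf', map_mul, map_mul, Polynomial.map_mul, map_C] at key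
  exact key.scale

/-- number fields -/
theorem LocN.num {K : Type} [Field K] [NumberField K] {n : ℕ} {v : HeightOneSpectrum (𝓞 K)}
    {S : AddSubmonoid ℕ} {a : K} {f : K[X]} (h : LocN n v.asIdeal S a f) (L : Type) [Field L]
    [NumberField L] [Algebra K L] (hL : Module.finrank K L ∉ S) :
    FineN n (algebraMap K L a) (f.map (algebraMap K L)) := by
  obtain ⟨A, i1, i2, i3, i4, e₁, f₁, hfin, hfr, hover, hef⟩ := over_num (L := L) v S hL
  exact h A L e₁ f₁ hover hef

/-- the monoid generated by `n` and the lengths of the cycles of `σ` on the roots of `f` -/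
def SN (n : ℕ) {K : Type} [Field K] (f : K[X])
    (σ : AlgebraicClosure K ≃ₐ[K] AlgebraicClosure K) : AddSubmonoid ℕ :=
  AddSubmonoid.closure ({n} ∪ {m | ∃ θ : AlgebraicClosure K, aeval θ f = 0 ∧ (σ ^ m) θ = θ})

theorem mainN {K : Type} [Field K] [NumberField K] {n : ℕ} (hn : n ≠ 0)
    (hsq : Squarefree n) (f : K[X])
    (hs : f.Separable) (hdf : n ∣ f.natDegree) (h3 : 3 ≤ f.natDegree)
    (c0 : 𝓞 K) (hc0 : c0 ≠ 0) :
    DZ {a : 𝓞 K | ∃ σ : AlgebraicClosure K ≃ₐ[K] AlgebraicClosure K,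
      ¬ ∃ v : HeightOneSpectrum (𝓞 K), c0 ∉ v.asIdeal ∧ a ∈ v.asIdeal ∧ a ∉ v.asIdeal ^ 2 ∧
        LocN n v.asIdeal (SN n f σ) (algebraMap (𝓞 K) K a) f} := by
  classical
  have hf0 : f ≠ 0 := hs.ne_zero
  let Zt : Type := {θ : AlgebraicClosure K // aeval θ f = 0}
  haveI : Finite Zt := by
    have h1 : {θ : AlgebraicClosure K | aeval θ f = 0}.Finite := by
      refine (rootSet_finite f (AlgebraicClosure K)).subset ?_
      intro θ hθ
      exact (mem_rootSet_of_ne hf0).2 hθ
    exact h1.to_subtype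
  let F : (AlgebraicClosure K ≃ₐ[K] AlgebraicClosure K) → Zt → Zt :=
    fun σ z => ⟨σ z.1, by
      have h1 := aeval_algHom_apply σ.toAlgHom z.1 f
      have h2 : aeval (σ z.1) f = σ (aeval z.1 f) := h1
      rw [h2, z.2, map_zero]⟩
  have hF : ∀ (σ : AlgebraicClosure K ≃ₐ[K] AlgebraicClosure K) (n : ℕ) (z : Zt),
      ((F σ)^[n] z).1 = (σ ^ n) z.1 := by
    intro σ n
    induction n with
    | zero => intro z; rfl
    | succ n ih =>
      intro z
      rw [Function.iterate_succ, Function.comp_apply, ih, pow_succ]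
      rfl
  let P : (Zt → Zt) → Set ℕ := fun φ => {n | ∃ z, φ^[n] z = z}
  have hP : ∀ σ : AlgebraicClosure K ≃ₐ[K] AlgebraicClosure K,
      {m | ∃ θ : AlgebraicClosure K, aeval θ f = 0 ∧ (σ ^ m) θ = θ} = P (F σ) := by
    intro σ
    ext m
    constructor
    · rintro ⟨z, hz, h1⟩
      refine ⟨⟨z, hz⟩, Subtype.ext ?_⟩
      rw [hF]
      exact h1
    · rintro ⟨z, hz⟩
      have h1 := hF σ m z
      rw [hz] at h1
      exact ⟨z.1, z.2, h1.symm⟩
  let E : (Zt → Zt) → Set (𝓞 K) := fun φ =>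
    {a : 𝓞 K | ¬ ∃ v : HeightOneSpectrum (𝓞 K), c0 ∉ v.asIdeal ∧ a ∈ v.asIdeal ∧
      a ∉ v.asIdeal ^ 2 ∧ LocN n v.asIdeal (AddSubmonoid.closure ({n} ∪ P φ))
        (algebraMap (𝓞 K) K a) f}
  have hE : ∀ φ ∈ Set.range F, DZ (E φ) := by
    rintro _ ⟨σ, rfl⟩ ε hε
    obtain ⟨T, hT, hTε⟩ := exists_primesN hn hsq f hs hdf h3 σ
      (AddSubmonoid.closure ({n} ∪ P (F σ)))
      (AddSubmonoid.subset_closure (Or.inl rfl)) (by
        intro m θ hθ hm
        refine AddSubmonoid.subset_closure (Or.inr ?_)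
        rw [← hP]
        exact ⟨θ, hθ, hm⟩) c0 hc0 ε hε
    refine ⟨∏ v ∈ T, v.asIdeal ^ 2, ?_, ?_⟩
    · refine Finset.prod_ne_zero_iff.2 fun v _ => pow_ne_zero _ v.ne_bot
    · have h1 := Pool.Agent.W417.SecC.D2.partD2 K T (E (F σ)) (by
          intro a ha v hv hav
          by_contra hcon
          exact ha ⟨v, (hT v hv).1, hav, hcon, (hT v hv).2 a hav hcon⟩)
      exact h1.trans (mul_le_mul_of_nonneg_right hTε.le (Nat.cast_nonneg _))
  refine (DZ.biUnion (Set.range F) (Set.toFinite _) E hE).mono ?_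
  rintro a ⟨σ, hσ⟩
  refine Set.mem_biUnion (Set.mem_range_self σ) ?_
  intro h
  apply hσ
  rw [SN, hP]
  exact h

/-- number fields: the polynomial and the element of the Galois group -/
theorem exists_fσ (K : Type) [Field K] [NumberField K] {n : ℕ} (hn : n ≠ 0)
    (S : AddSubmonoid ℕ) (hS : n ∈ S) :
    ∃ f : (𝓞 K)[X], f.Monic ∧ (f.map (algebraMap (𝓞 K) K)).Separable ∧ n ∣ f.natDegree ∧
      6 ≤ f.natDegree ∧ (∀ a : K, a ≠ 0 → S ≤ PD n a (f.map (algebraMap (𝓞 K) K))) ∧
      ∃ σ : AlgebraicClosure K ≃ₐ[K] AlgebraicClosure K,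
        SN n (f.map (algebraMap (𝓞 K) K)) σ = S := by
  classical
  obtain ⟨G, hG, hSG, hdG, h6⟩ := exists_gen S n (Nat.pos_of_ne_zero hn) hS
  obtain ⟨v, hv⟩ := Ideal.exists_maximal (𝓞 K)
  have hv0 : v ≠ ⊥ := Ring.ne_bot_of_isMaximal_of_not_isField hv
    (NumberField.RingOfIntegers.not_isField K)
  haveI : Finite (𝓞 K ⧸ v) := Ideal.finiteQuotientOfFreeOfNeBot v hv0
  have hinj : Function.Injective (algebraMap (𝓞 K) K) := IsFractionRing.injective (𝓞 K) K
  have h1 : ∀ g : ℕ, ∃ P : (𝓞 K)[X], 0 < g → P.Monic ∧ P.natDegree = g ∧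
      Irreducible (P.map (Ideal.Quotient.mk v)) := by
    intro g
    by_cases hg : 0 < g
    swap
    · exact ⟨0, fun h => absurd h hg⟩
    letI : Field (𝓞 K ⧸ v) := Ideal.Quotient.field v
    obtain ⟨P, h1, h2, h3⟩ := exists_lift (Ideal.Quotient.mk v) Ideal.Quotient.mk_surjective g hg
    exact ⟨P, fun _ => ⟨h1, h2, h3⟩⟩
  choose P hP0 using h1
  have hP : ∀ g ∈ G, (P g).Monic ∧ (P g).natDegree = g ∧
      Irreducible ((P g).map (Ideal.Quotient.mk v)) := fun g hg => hP0 g (hG g hg).1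
  have hPK : ∀ g ∈ G, Irreducible ((P g).map (algebraMap (𝓞 K) K)) := by
    intro g hg
    rw [← (hP g hg).1.irreducible_iff_irreducible_map_fraction_map]
    exact (hP g hg).1.irreducible_of_irreducible_map (Ideal.Quotient.mk v) _ (hP g hg).2.2
  set f : (𝓞 K)[X] := ∏ g ∈ G, P g with hf
  have hm : f.Monic := monic_prod_of_monic _ _ fun g hg => (hP g hg).1
  have hdeg : f.natDegree = ∑ g ∈ G, g := by
    rw [hf, natDegree_prod_of_monic _ _ fun g hg => (hP g hg).1]
    exact Finset.sum_congr rfl fun g hg => (hP g hg).2.1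
  have hdegK : ∀ g ∈ G, ((P g).map (algebraMap (𝓞 K) K)).natDegree = g := by
    intro g hg
    rw [(hP g hg).1.natDegree_map, (hP g hg).2.1]
  refine ⟨f, hm, ?_, by rw [hdeg]; exact hdG, by rw [hdeg]; exact h6, ?_, ?_⟩
  · rw [hf, Polynomial.map_prod]
    exact sep_prod G _ hdegK hPK
  · intro a ha
    rw [hSG, AddSubmonoid.closure_le]
    intro g hg
    rcases Set.mem_insert_iff.1 hg with rfl | hg
    · exact pd_n hn a ha _
    · have hg' : g ∈ G := Finset.mem_coe.1 hg
      have h1 := pd_dvd hn a (f.map (algebraMap (𝓞 K) K)) ((P g).map (algebraMap (𝓞 K) K))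
        (hPK g hg') (Polynomial.map_dvd _ (Finset.dvd_prod_of_mem P hg'))
      rw [hdegK g hg'] at h1
      exact h1
  · obtain ⟨σ, hσ⟩ := exists_sigma K v hv0 G P hP
    refine ⟨σ, ?_⟩
    have hroots : ∀ θ : AlgebraicClosure K, aeval θ (f.map (algebraMap (𝓞 K) K)) = 0 →
        ∃ g ∈ G, aeval θ ((P g).map (algebraMap (𝓞 K) K)) = 0 := by
      intro θ hθ
      rw [hf, Polynomial.map_prod, map_prod, Finset.prod_eq_zero_iff] at hθ
      exact hθ
    apply le_antisymm
    · rw [SN, AddSubmonoid.closure_le]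
      rintro m (hm | ⟨θ, hθ, hm⟩)
      · rw [Set.mem_singleton_iff] at hm
        rw [hm]
        exact hS
      · obtain ⟨g, hg, hgθ⟩ := hroots θ hθ
        obtain ⟨i, rfl⟩ := hσ g hg m θ hgθ hm
        rw [mul_comm, ← smul_eq_mul]
        exact S.nsmul_mem (hG g hg).2 i
    · conv_lhs => rw [hSG]
      rw [AddSubmonoid.closure_le]
      intro g hg
      rcases Set.mem_insert_iff.1 hg with rfl | hg
      · exact AddSubmonoid.subset_closure (Or.inl rfl)
      · have hg' : g ∈ G := Finset.mem_coe.1 hg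
        refine AddSubmonoid.subset_closure (Or.inr ?_)
        -- a root
        have hdeg0 : (((P g).map (algebraMap (𝓞 K) K)).map
            (algebraMap K (AlgebraicClosure K))).degree ≠ 0 := by
          rw [degree_map]
          have h2 := (hPK g hg').degree_pos
          exact h2.ne'
        obtain ⟨θ, hθ⟩ := IsAlgClosed.exists_root _ hdeg0
        rw [IsRoot.def, eval_map_algebraMap] at hθ
        have hgal : ∀ i : ℕ, aeval ((σ ^ i) θ) ((P g).map (algebraMap (𝓞 K) K)) = 0 := by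
          intro i
          have h2 : aeval ((σ ^ i) θ) ((P g).map (algebraMap (𝓞 K) K)) =
              (σ ^ i) (aeval θ ((P g).map (algebraMap (𝓞 K) K))) :=
            aeval_algHom_apply (σ ^ i).toAlgHom θ _
          rw [h2, hθ, map_zero]
        have hP0' : (P g).map (algebraMap (𝓞 K) K) ≠ 0 := (hPK g hg').ne_zero
        set R : Finset (AlgebraicClosure K) :=
          (((P g).map (algebraMap (𝓞 K) K)).aroots (AlgebraicClosure K)).toFinset with hR
        have hRc : R.card ≤ g := by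
          refine (Multiset.toFinset_card_le _).trans ?_
          refine (card_roots' _).trans ?_
          rw [natDegree_map, hdegK g hg']
        have hmaps : ∀ i ∈ Finset.range (g + 1), (σ ^ i) θ ∈ R := by
          intro i _
          rw [hR, Multiset.mem_toFinset, mem_aroots]
          exact ⟨hP0', hgal i⟩
        obtain ⟨i, hi, j, hj, hij, hσij⟩ := Finset.exists_ne_map_eq_of_card_lt_of_maps_to
          (s := Finset.range (g + 1)) (t := R) (by
            rw [Finset.card_range]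
            omega) hmaps
        have key : ∀ i j : ℕ, i < j → j ≤ g → (σ ^ i) θ = (σ ^ j) θ → (σ ^ g) θ = θ := by
          intro i j hij hjg h
          have h2 : (σ ^ (j - i)) θ = θ := by
            apply (σ ^ i).injective
            rw [← AlgEquiv.mul_apply, ← pow_add, Nat.add_sub_cancel' hij.le, ← h]
          have h3 := hσ g hg' (j - i) θ hθ h2
          have h4 := Nat.le_of_dvd (by omega) h3
          have h5 : j - i = g := by omega
          rwa [h5] at h2
        rw [Finset.mem_range] at hi hj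
        refine ⟨θ, ?_, ?_⟩
        · rw [hf, Polynomial.map_prod, map_prod]
          exact Finset.prod_eq_zero hg' hθ
        · rcases lt_or_gt_of_ne hij with h | h
          · exact key i j h (by omega) hσij
          · exact key j i h (by omega) hσij.symm

end Pool.Agent.J4H44.DG
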